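import Mathlib
import Pool.Agent.H9.Ellip

set_option autoImplicit false

namespace Pool.Agent.Results.MP_cd78f9_gt.Quadratic

theorem result (n m : ℕ)
    (φ : Metric.sphere (0 : EuclideanSpace ℝ (Fin n)) 1 → EuclideanSpace ℝ (Fin m))
    (hc : Continuous φ) (_heven : ∀ x, φ (-x) = φ x)
    (hd : ∀ x y, dist (φ x) (φ y) = Metric.diam (Set.range φ) ↔ inner ℝ x.1 y.1 = 0) :
    n ^ 2 / 4 ≤ m + 1 :=
  Pool.Agent.H9.Ellip.main n m φ hc hd

end Pool.Agent.Results.MP_cd78f9_gt.Quadratic
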